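import Mathlib

/-!
# Popular differences of a measure on the circle

`Pop μ h t r`: some self coupling of `μ` puts mass at least `h` on the pairs with difference within
`r` of `t`.  The relation is preserved by the maps `x ↦ n x` which preserve `μ`, and it is closed in
`(μ, h, t, r)`.
-/

set_option autoImplicit false
open MeasureTheory Filter Topology Set

namespace Helper26.AG

/-- the circle -/
abbrev Tor := AddCircle (1 : ℝ)

/-- some self coupling of `μ` puts mass at least `h` on the pairs with difference within `r` of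
`t` -/
def Pop (μ : Measure Tor) (h : ℝ) (t : Tor) (r : ℝ) : Prop :=
  ∃ π : Measure (Tor × Tor), IsProbabilityMeasure π ∧ π.map Prod.fst = μ ∧ π.map Prod.snd = μ ∧
    h ≤ π.real {p | ‖p.2 - p.1 - t‖ ≤ r}

lemma isClosed_near (t : Tor) (r : ℝ) : IsClosed {p : Tor × Tor | ‖p.2 - p.1 - t‖ ≤ r} :=
  isClosed_le (by fun_prop) continuous_const

lemma Pop.mono {μ : Measure Tor} {h h' : ℝ} {t : Tor} {r r' : ℝ}
    (hh : h' ≤ h) (hr : r ≤ r') (hp : Pop μ h t r) : Pop μ h' t r' := by
  obtain ⟨π, h0, h1, h2, h3⟩ := hp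
  exact ⟨π, h0, h1, h2, hh.trans (h3.trans (measureReal_mono fun z hz => le_trans hz hr))⟩

/-- moving the centre -/
lemma Pop.move {μ : Measure Tor} {h : ℝ} {t t' : Tor} {r r' : ℝ}
    (hr : ‖t - t'‖ + r ≤ r') (hp : Pop μ h t r) : Pop μ h t' r' := by
  obtain ⟨π, h0, h1, h2, h3⟩ := hp
  refine ⟨π, h0, h1, h2, h3.trans (measureReal_mono fun z hz => ?_)⟩
  have hz' : ‖z.2 - z.1 - t‖ ≤ r := hz
  show ‖z.2 - z.1 - t'‖ ≤ r'
  have e : z.2 - z.1 - t' = (z.2 - z.1 - t) + (t - t') := by abel
  rw [e]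
  exact (norm_add_le _ _).trans (by linarith)

lemma Pop.le_one {μ : Measure Tor} {h : ℝ} {t : Tor} {r : ℝ} (hp : Pop μ h t r) : h ≤ 1 := by
  obtain ⟨π, h0, -, -, h3⟩ := hp
  exact h3.trans measureReal_le_one

lemma Pop.zero {μ : Measure Tor} [IsProbabilityMeasure μ] {h : ℝ} (hh : h ≤ 1)
    {r : ℝ} (hr : 0 ≤ r) : Pop μ h 0 r := by
  refine ⟨μ.map fun x => (x, x), Measure.isProbabilityMeasure_map (by fun_prop), ?_, ?_, ?_⟩
  · rw [Measure.map_map measurable_fst (by fun_prop)]
    exact Measure.map_id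
  · rw [Measure.map_map measurable_snd (by fun_prop)]
    exact Measure.map_id
  · rw [map_measureReal_apply (by fun_prop) (isClosed_near 0 r).measurableSet]
    have : (fun x : Tor => (x, x)) ⁻¹' {z | ‖z.2 - z.1 - 0‖ ≤ r} = univ := by
      ext x
      simp [hr]
    rw [this, probReal_univ]
    exact hh

lemma Pop.neg {μ : Measure Tor} {h : ℝ} {t : Tor} {r : ℝ}
    (hp : Pop μ h t r) : Pop μ h (-t) r := by
  obtain ⟨π, h0, h1, h2, h3⟩ := hp
  refine ⟨π.map Prod.swap, Measure.isProbabilityMeasure_map (by fun_prop), ?_, ?_, ?_⟩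
  · rw [Measure.map_map measurable_fst measurable_swap]
    exact h2
  · rw [Measure.map_map measurable_snd measurable_swap]
    exact h1
  · rw [map_measureReal_apply measurable_swap (isClosed_near (-t) r).measurableSet]
    refine h3.trans (measureReal_mono fun z hz => ?_)
    have hz' : ‖z.2 - z.1 - t‖ ≤ r := hz
    show ‖z.1 - z.2 - -t‖ ≤ r
    have e : z.1 - z.2 - -t = -(z.2 - z.1 - t) := by abel
    rwa [e, norm_neg]

/-- popular differences are preserved by the endomorphisms which preserve `μ` -/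
lemma Pop.smul {μ : Measure Tor} {h : ℝ} {t : Tor} {r : ℝ} (n : ℕ)
    (hn : μ.map (fun x => n • x) = μ) (hp : Pop μ h t r) : Pop μ h (n • t) (n * r) := by
  obtain ⟨π, h0, h1, h2, h3⟩ := hp
  have hm : Measurable (fun x : Tor => n • x) := by
    apply Continuous.measurable; fun_prop
  have hm2 : Measurable (fun z : Tor × Tor => (n • z.1, n • z.2)) :=
    (hm.comp measurable_fst).prodMk (hm.comp measurable_snd)
  refine ⟨π.map fun z => (n • z.1, n • z.2), Measure.isProbabilityMeasure_map hm2.aemeasurable,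
    ?_, ?_, ?_⟩
  · rw [Measure.map_map measurable_fst hm2]
    conv_rhs => rw [← hn, ← h1]
    rw [Measure.map_map hm measurable_fst]
    rfl
  · rw [Measure.map_map measurable_snd hm2]
    conv_rhs => rw [← hn, ← h2]
    rw [Measure.map_map hm measurable_snd]
    rfl
  · rw [map_measureReal_apply hm2 (isClosed_near _ _).measurableSet]
    refine h3.trans (measureReal_mono fun z hz => ?_)
    have hz' : ‖z.2 - z.1 - t‖ ≤ r := hz
    show ‖n • z.2 - n • z.1 - n • t‖ ≤ n * r
    rw [← smul_sub, ← smul_sub]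
    exact norm_nsmul_le.trans (mul_le_mul_of_nonneg_left hz' (by positivity))

/-- popular differences in terms of the space of probability measures -/
lemma pop_iff {μ : ProbabilityMeasure Tor} {h : ℝ} {t : Tor} {r : ℝ} :
    Pop (μ : Measure Tor) h t r ↔
      ∃ π : ProbabilityMeasure (Tor × Tor),
        π.map continuous_fst.aemeasurable = μ ∧ π.map continuous_snd.aemeasurable = μ ∧
        h ≤ (π : Measure (Tor × Tor)).real {z | ‖z.2 - z.1 - t‖ ≤ r} := by
  constructor
  · rintro ⟨π, hπ, h1, h2, h3⟩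
    exact ⟨⟨π, hπ⟩, Subtype.ext h1, Subtype.ext h2, h3⟩
  · rintro ⟨π, h1, h2, h3⟩
    refine ⟨π, inferInstance, ?_, ?_, h3⟩
    · rw [← h1]; rfl
    · rw [← h2]; rfl

/-- the relation `Pop` is closed -/
theorem Pop.of_tendsto {ι : Type*} {l : Filter ι} [l.NeBot]
    {μs : ι → ProbabilityMeasure Tor} {μ : ProbabilityMeasure Tor}
    (hμ : Tendsto μs l (𝓝 μ)) {hs : ι → ℝ} {h : ℝ} (hh : Tendsto hs l (𝓝 h))
    {ts : ι → Tor} {t : Tor} (ht : Tendsto ts l (𝓝 t))
    {rs : ι → ℝ} {r : ℝ} (hr : Tendsto rs l (𝓝 r))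
    (hp : ∃ᶠ i in l, Pop (μs i : Measure Tor) (hs i) (ts i) (rs i)) :
    Pop (μ : Measure Tor) h t r := by
  classical
  -- an ultrafilter on which the relation holds
  obtain ⟨u, hu, hul⟩ : ∃ u : Ultrafilter ι, (u : Filter ι) ≤ l ∧
      ∀ᶠ i in (u : Filter ι), Pop (μs i : Measure Tor) (hs i) (ts i) (rs i) := by
    have hne : (l ⊓ 𝓟 {i | Pop (μs i : Measure Tor) (hs i) (ts i) (rs i)}).NeBot :=
      frequently_mem_iff_neBot.1 hp
    refine ⟨Ultrafilter.of (l ⊓ 𝓟 {i | Pop (μs i : Measure Tor) (hs i) (ts i) (rs i)}),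
      (Ultrafilter.of_le _).trans inf_le_left, ?_⟩
    exact ((Ultrafilter.of_le _).trans inf_le_right) (mem_principal_self _)
  -- the couplings
  let P : ι → ProbabilityMeasure (Tor × Tor) → Prop := fun i π =>
    π.map continuous_fst.aemeasurable = μs i ∧ π.map continuous_snd.aemeasurable = μs i ∧
        hs i ≤ (π : Measure (Tor × Tor)).real {z | ‖z.2 - z.1 - ts i‖ ≤ rs i}
  have : Nonempty (ProbabilityMeasure (Tor × Tor)) := ⟨⟨Measure.dirac (0, 0), inferInstance⟩⟩
  let πs : ι → ProbabilityMeasure (Tor × Tor) := fun i =>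
    if hi : ∃ π, P i π then hi.choose else Classical.arbitrary _
  have hπs : ∀ᶠ i in (u : Filter ι), P i (πs i) := by
    filter_upwards [hul] with i hi
    have hi' : ∃ π, P i π := pop_iff.1 hi
    show P i (if hi : ∃ π, P i π then hi.choose else Classical.arbitrary _)
    rw [dif_pos hi']
    exact hi'.choose_spec
  -- a limit
  obtain ⟨π, -, hπ⟩ := isCompact_univ.ultrafilter_le_nhds (u.map πs) (by simp)
  have hlim : Tendsto πs (u : Filter ι) (𝓝 π) := hπ
  rw [pop_iff]
  refine ⟨π, ?_, ?_, ?_⟩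
  · have a1 : Tendsto (fun i => (πs i).map continuous_fst.aemeasurable) (u : Filter ι)
        (𝓝 (π.map continuous_fst.aemeasurable)) :=
      ProbabilityMeasure.tendsto_map_of_tendsto_of_continuous _ _ hlim continuous_fst
    have a2 : Tendsto (fun i => (πs i).map continuous_fst.aemeasurable) (u : Filter ι) (𝓝 μ) := by
      refine (hμ.mono_left hu).congr' ?_
      filter_upwards [hπs] with i hi
      exact hi.1.symm
    exact tendsto_nhds_unique a1 a2
  · have a1 : Tendsto (fun i => (πs i).map continuous_snd.aemeasurable) (u : Filter ι)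
        (𝓝 (π.map continuous_snd.aemeasurable)) :=
      ProbabilityMeasure.tendsto_map_of_tendsto_of_continuous _ _ hlim continuous_snd
    have a2 : Tendsto (fun i => (πs i).map continuous_snd.aemeasurable) (u : Filter ι) (𝓝 μ) := by
      refine (hμ.mono_left hu).congr' ?_
      filter_upwards [hπs] with i hi
      exact hi.2.1.symm
    exact tendsto_nhds_unique a1 a2
  · -- for each `δ > 0` the mass of the set of radius `r + δ` is at least `h`
    have key : ∀ δ : ℝ, 0 < δ →
        ENNReal.ofReal h ≤ (π : Measure (Tor × Tor)) {z | ‖z.2 - z.1 - t‖ ≤ r + δ} := by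
      intro δ hδ
      have b1 := ProbabilityMeasure.limsup_measure_closed_le_of_tendsto hlim
        (isClosed_near t (r + δ))
      refine le_trans ?_ b1
      have b2 : (u : Filter ι).limsup (fun i => ENNReal.ofReal (hs i)) = ENNReal.ofReal h :=
        ((ENNReal.continuous_ofReal.tendsto h).comp (hh.mono_left hu)).limsup_eq
      rw [← b2]
      refine limsup_le_limsup ?_
      have c1 : ∀ᶠ i in (u : Filter ι), ‖ts i - t‖ < δ / 2 := by
        have := (tendsto_iff_norm_sub_tendsto_zero.1 (ht.mono_left hu)).eventually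
          (gt_mem_nhds (show (0 : ℝ) < δ / 2 by linarith))
        simpa using this
      have c2 : ∀ᶠ i in (u : Filter ι), rs i < r + δ / 2 :=
        (hr.mono_left hu).eventually (gt_mem_nhds (by linarith))
      filter_upwards [hπs, c1, c2] with i hi h1 h2
      have hle : (πs i : Measure (Tor × Tor)).real {z | ‖z.2 - z.1 - ts i‖ ≤ rs i} ≤
          (πs i : Measure (Tor × Tor)).real {z | ‖z.2 - z.1 - t‖ ≤ r + δ} := by
        refine measureReal_mono fun z hz => ?_
        have hz' : ‖z.2 - z.1 - ts i‖ ≤ rs i := hz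
        show ‖z.2 - z.1 - t‖ ≤ r + δ
        have e : z.2 - z.1 - t = (z.2 - z.1 - ts i) + (ts i - t) := by abel
        rw [e]
        exact (norm_add_le _ _).trans (by linarith)
      exact ENNReal.ofReal_le_of_le_toReal (hi.2.2.trans hle)
    have hA : Antitone fun n : ℕ => {z : Tor × Tor | ‖z.2 - z.1 - t‖ ≤ r + 1 / ((n : ℝ) + 1)} := by
      intro m n hmn z hz
      have : 1 / ((n : ℝ) + 1) ≤ 1 / ((m : ℝ) + 1) :=
        one_div_le_one_div_of_le (by positivity) (by exact_mod_cast Nat.succ_le_succ hmn)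
      have hz' : ‖z.2 - z.1 - t‖ ≤ r + 1 / ((n : ℝ) + 1) := hz
      show ‖z.2 - z.1 - t‖ ≤ r + 1 / ((m : ℝ) + 1)
      linarith
    have hI : {z : Tor × Tor | ‖z.2 - z.1 - t‖ ≤ r} =
        ⋂ n : ℕ, {z | ‖z.2 - z.1 - t‖ ≤ r + 1 / ((n : ℝ) + 1)} := by
      ext z
      simp only [mem_ofPred_eq, mem_iInter]
      constructor
      · intro hz n
        have : (0 : ℝ) < 1 / ((n : ℝ) + 1) := by positivity
        linarith
      · intro hz
        refine le_of_forall_pos_lt_add fun ε hε => ?_
        obtain ⟨n, hn⟩ := exists_nat_one_div_lt hε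
        exact lt_of_le_of_lt (hz n) (by linarith)
    have hL : Tendsto (fun n : ℕ => (π : Measure (Tor × Tor))
        {z | ‖z.2 - z.1 - t‖ ≤ r + 1 / ((n : ℝ) + 1)}) atTop
        (𝓝 ((π : Measure (Tor × Tor)) {z | ‖z.2 - z.1 - t‖ ≤ r})) := by
      rw [hI]
      exact tendsto_measure_iInter_atTop (fun n => (isClosed_near _ _).measurableSet.nullMeasurableSet)
        hA ⟨0, measure_ne_top _ _⟩
    have hfin := ge_of_tendsto' hL fun n => key _ (by positivity)
    exact (ENNReal.ofReal_le_iff_le_toReal (measure_ne_top _ _)).1 hfin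

end Helper26.AG
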