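import Mathlib

/-!
# A Donsker-Varadhan bound for the information of a finite partition

`ν` is a probability measure on `Ω`, `p y` a probability vector for every `y`, `pbar` the mean of
the `p y`.  If the information `∑ negMulLog (pbar i) - ∫ ∑ negMulLog (p y i)` is at most `C` and
`0 ≤ g ≤ 1` then `l P ≤ C + log (1 + (exp l - 1) Q)` for all real `l ≥ 0`, where
`P = ∫ ∑ g y i p y i` and `Q = ∫ ∑ g y i pbar i`.
-/

set_option autoImplicit false
open MeasureTheory Filter Topology Set Real

namespace Helper26.AG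

/-- the pointwise inequality -/
lemma pt (p q g l Z : ℝ) (hp : 0 ≤ p) (hq : 0 ≤ q) (hpq : q = 0 → p = 0) (hZ : 0 < Z) (hl : 0 ≤ l)
    (hg0 : 0 ≤ g) (hg1 : g ≤ 1) :
    l * (g * p) + p * log q + negMulLog p - p * log Z ≤ (q + (exp l - 1) * (g * q)) / Z - p := by
  have hconv : exp (l * g) ≤ 1 + (exp l - 1) * g := by
    have h := convexOn_exp.2 (Set.mem_univ (0 : ℝ)) (Set.mem_univ l)
      (show (0 : ℝ) ≤ 1 - g by linarith) hg0 (by ring)
    simp only [smul_eq_mul, mul_zero, zero_add, Real.exp_zero, mul_one] at h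
    have e : l * g = g * l := mul_comm _ _
    rw [e]
    linarith
  rcases hp.eq_or_lt with h0 | h0
  · rw [← h0]
    simp only [mul_zero, zero_mul, negMulLog_zero, add_zero, sub_zero]
    apply div_nonneg _ hZ.le
    have : 0 ≤ (exp l - 1) * (g * q) := by
      have : (1 : ℝ) ≤ exp l := Real.one_le_exp hl
      have h2 : 0 ≤ g * q := by positivity
      exact mul_nonneg (by linarith) h2
    linarith
  · have hq0 : 0 < q := by
      rcases hq.eq_or_lt with h1 | h1
      · exact absurd (hpq h1.symm) h0.ne'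
      · exact h1
    have hx : 0 < q * exp (l * g) / (p * Z) := by positivity
    have hlog := Real.log_le_sub_one_of_pos hx
    have e1 : log (q * exp (l * g) / (p * Z)) = log q + l * g - log p - log Z := by
      rw [Real.log_div (by positivity) (by positivity), Real.log_mul (by positivity) (by positivity),
        Real.log_mul (by positivity) (by positivity), Real.log_exp]
      ring
    rw [e1] at hlog
    have h3 := mul_le_mul_of_nonneg_left hlog h0.le
    have e2 : p * (q * exp (l * g) / (p * Z) - 1) = q * exp (l * g) / Z - p := by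
      field_simp
    rw [e2] at h3
    have h4 : q * exp (l * g) / Z ≤ (q + (exp l - 1) * (g * q)) / Z := by
      apply div_le_div_of_nonneg_right _ hZ.le
      have := mul_le_mul_of_nonneg_left hconv hq0.le
      linarith
    unfold negMulLog
    linarith

theorem bin {Ω : Type*} [MeasurableSpace Ω] (ν : Measure Ω) [IsProbabilityMeasure ν]
    {I : Type*} [Fintype I] (p : Ω → I → ℝ) (hm : ∀ i, Measurable fun y => p y i)
    (h0 : ∀ y i, 0 ≤ p y i) (h1 : ∀ y, ∑ i, p y i = 1) (C : ℝ)
    (hC : ∑ i, negMulLog (∫ y, p y i ∂ν) - ∫ y, ∑ i, negMulLog (p y i) ∂ν ≤ C)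
    (g : Ω → I → ℝ) (hg : ∀ i, Measurable fun y => g y i)
    (hg0 : ∀ y i, 0 ≤ g y i) (hg1 : ∀ y i, g y i ≤ 1) (l : ℝ) (hl : 0 ≤ l) :
    l * ∫ y, ∑ i, g y i * p y i ∂ν ≤
      C + log (1 + (exp l - 1) * ∫ y, ∑ i, g y i * (∫ z, p z i ∂ν) ∂ν) := by
  classical
  have hp1 : ∀ y i, p y i ≤ 1 := fun y i =>
    (Finset.single_le_sum (fun j _ => h0 y j) (Finset.mem_univ i)).trans (h1 y).le
  have ip : ∀ i, Integrable (fun y => p y i) ν := fun i =>
    Integrable.of_bound (hm i).aestronglyMeasurable 1 (Eventually.of_forall fun y => by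
      rw [Real.norm_eq_abs, abs_of_nonneg (h0 y i)]; exact hp1 y i)
  set q : I → ℝ := fun i => ∫ z, p z i ∂ν with hq
  have hq0 : ∀ i, 0 ≤ q i := fun i => integral_nonneg fun y => h0 y i
  have hq1 : ∀ i, q i ≤ 1 := fun i => by
    have := integral_mono (ip i) (integrable_const (1 : ℝ)) fun y => hp1 y i
    simpa using this
  have hqs : ∑ i, q i = 1 := by
    rw [← integral_finsetSum _ fun i _ => ip i]
    simp [h1]
  have iN : ∀ i, Integrable (fun y => negMulLog (p y i)) ν := fun i => by
    refine Integrable.of_bound (continuous_negMulLog.measurable.comp (hm i)).aestronglyMeasurable 1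
      (Eventually.of_forall fun y => ?_)
    rw [Real.norm_eq_abs, abs_of_nonneg (negMulLog_nonneg (h0 y i) (hp1 y i))]
    have h5 : negMulLog (p y i) ≤ 1 - p y i := by
      rcases (h0 y i).eq_or_lt with h | h
      · rw [← h]; simp
      · have := Real.log_le_sub_one_of_pos (inv_pos.2 h)
        rw [Real.log_inv] at this
        have h6 := mul_le_mul_of_nonneg_left this h.le
        rw [mul_sub, mul_inv_cancel₀ h.ne', mul_one] at h6
        unfold negMulLog
        linarith
    linarith [h0 y i]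
  have igp : ∀ i, Integrable (fun y => g y i * p y i) ν := fun i =>
    Integrable.of_bound ((hg i).mul (hm i)).aestronglyMeasurable 1 (Eventually.of_forall fun y => by
      rw [Real.norm_eq_abs, abs_of_nonneg (mul_nonneg (hg0 y i) (h0 y i))]
      exact mul_le_one₀ (hg1 y i) (h0 y i) (hp1 y i))
  have igq : ∀ i, Integrable (fun y => g y i * q i) ν := fun i =>
    Integrable.of_bound ((hg i).mul_const _).aestronglyMeasurable 1 (Eventually.of_forall fun y => by
      rw [Real.norm_eq_abs, abs_of_nonneg (mul_nonneg (hg0 y i) (hq0 i))]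
      exact mul_le_one₀ (hg1 y i) (hq0 i) (hq1 i))
  set P := ∫ y, ∑ i, g y i * p y i ∂ν with hP
  set Q := ∫ y, ∑ i, g y i * q i ∂ν with hQ
  have hQ0 : 0 ≤ Q := integral_nonneg fun y =>
    Finset.sum_nonneg fun i _ => mul_nonneg (hg0 y i) (hq0 i)
  have hel : 0 ≤ exp l - 1 := by linarith [Real.one_le_exp hl]
  set Z := 1 + (exp l - 1) * Q with hZ
  have hZ1 : 1 ≤ Z := by
    have := mul_nonneg hel hQ0
    linarith
  have hZ0 : 0 < Z := by linarith
  -- pointwise
  have hae : ∀ᵐ y ∂ν, ∀ i, q i = 0 → p y i = 0 := by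
    rw [ae_all_iff]
    intro i
    by_cases hqi : q i = 0
    · have := (integral_eq_zero_iff_of_nonneg (fun y => h0 y i) (ip i)).1 hqi
      filter_upwards [this] with y hy _
      exact hy
    · exact Eventually.of_forall fun y h => absurd h hqi
  have hpt : ∀ᵐ y ∂ν, ∑ i, (l * (g y i * p y i) + p y i * log (q i) + negMulLog (p y i)
      - p y i * log Z) ≤ ∑ i, ((q i + (exp l - 1) * (g y i * q i)) / Z - p y i) := by
    filter_upwards [hae] with y hy
    exact Finset.sum_le_sum fun i _ =>
      pt (p y i) (q i) (g y i) l Z (h0 y i) (hq0 i) (hy i) hZ0 hl (hg0 y i) (hg1 y i)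
  have iL : ∀ i, Integrable (fun y => l * (g y i * p y i) + p y i * log (q i) + negMulLog (p y i)
      - p y i * log Z) ν := fun i =>
    ((((igp i).const_mul l).add ((ip i).mul_const _)).add (iN i)).sub ((ip i).mul_const _)
  have iR : ∀ i, Integrable (fun y => (q i + (exp l - 1) * (g y i * q i)) / Z - p y i) ν := fun i =>
    ((((integrable_const (q i)).add ((igq i).const_mul _)).div_const _).sub (ip i))
  have hint := integral_mono_ae (integrable_finsetSum _ fun i _ => iL i)
    (integrable_finsetSum _ fun i _ => iR i) hpt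
  rw [integral_finsetSum _ fun i _ => iL i, integral_finsetSum _ fun i _ => iR i] at hint
  have eL : ∀ i, ∫ y, (l * (g y i * p y i) + p y i * log (q i) + negMulLog (p y i)
      - p y i * log Z) ∂ν = l * ∫ y, g y i * p y i ∂ν + q i * log (q i)
        + ∫ y, negMulLog (p y i) ∂ν - q i * log Z := by
    intro i
    have j1 : Integrable (fun y => l * (g y i * p y i)) ν := (igp i).const_mul l
    have j2 : Integrable (fun y => p y i * log (q i)) ν := (ip i).mul_const _
    have j3 : Integrable (fun y => p y i * log Z) ν := (ip i).mul_const _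
    have j4 : Integrable (fun y => l * (g y i * p y i) + p y i * log (q i)) ν := j1.add j2
    have j5 : Integrable (fun y => l * (g y i * p y i) + p y i * log (q i) + negMulLog (p y i)) ν :=
      j4.add (iN i)
    rw [integral_sub j5 j3, integral_add j4 (iN i), integral_add j1 j2, integral_const_mul,
      integral_mul_const, integral_mul_const]
  have eR : ∀ i, ∫ y, ((q i + (exp l - 1) * (g y i * q i)) / Z - p y i) ∂ν =
      (q i + (exp l - 1) * ∫ y, g y i * q i ∂ν) / Z - q i := by
    intro i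
    have j1 : Integrable (fun y => (exp l - 1) * (g y i * q i)) ν := (igq i).const_mul _
    have j2 : Integrable (fun y => q i + (exp l - 1) * (g y i * q i)) ν :=
      (integrable_const (q i)).add j1
    have j3 : Integrable (fun y => (q i + (exp l - 1) * (g y i * q i)) / Z) ν := j2.div_const _
    rw [integral_sub j3 (ip i), integral_div, integral_add (integrable_const (q i)) j1,
      integral_const_mul, integral_const, probReal_univ, one_smul]
  rw [Finset.sum_congr rfl fun i _ => eL i, Finset.sum_congr rfl fun i _ => eR i] at hint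
  have sR : ∑ i, ((q i + (exp l - 1) * ∫ y, g y i * q i ∂ν) / Z - q i) = 0 := by
    rw [Finset.sum_sub_distrib, ← Finset.sum_div, Finset.sum_add_distrib, ← Finset.mul_sum,
      ← integral_finsetSum _ fun i _ => igq i, hqs, ← hQ, ← hZ, div_self hZ0.ne', sub_self]
  have sL : ∑ i, (l * ∫ y, g y i * p y i ∂ν + q i * log (q i)
        + ∫ y, negMulLog (p y i) ∂ν - q i * log Z) =
      l * P - ∑ i, negMulLog (q i) + ∫ y, ∑ i, negMulLog (p y i) ∂ν - log Z := by
    rw [Finset.sum_sub_distrib, Finset.sum_add_distrib, Finset.sum_add_distrib, ← Finset.mul_sum,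
      ← integral_finsetSum _ fun i _ => igp i, ← integral_finsetSum _ fun i _ => iN i,
      ← Finset.sum_mul, hqs, one_mul, ← hP]
    have : ∑ i, q i * log (q i) = - ∑ i, negMulLog (q i) := by
      rw [← Finset.sum_neg_distrib]
      refine Finset.sum_congr rfl fun i _ => ?_
      unfold negMulLog
      ring
    rw [this]
    ring
  rw [sL, sR] at hint
  linarith

/-- the form used for rare events -/
theorem bin' {Ω : Type*} [MeasurableSpace Ω] (ν : Measure Ω) [IsProbabilityMeasure ν]
    {I : Type*} [Fintype I] (p : Ω → I → ℝ) (hm : ∀ i, Measurable fun y => p y i)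
    (h0 : ∀ y i, 0 ≤ p y i) (h1 : ∀ y, ∑ i, p y i = 1) (C : ℝ)
    (hC : ∑ i, negMulLog (∫ y, p y i ∂ν) - ∫ y, ∑ i, negMulLog (p y i) ∂ν ≤ C)
    (g : Ω → I → ℝ) (hg : ∀ i, Measurable fun y => g y i)
    (hg0 : ∀ y i, 0 ≤ g y i) (hg1 : ∀ y i, g y i ≤ 1) (ε : ℝ) (hε : 0 < ε) (hε1 : ε ≤ 1)
    (hQ : ∫ y, ∑ i, g y i * (∫ z, p z i ∂ν) ∂ν ≤ ε) :
    log (1 / ε) * ∫ y, ∑ i, g y i * p y i ∂ν ≤ C + log 2 := by
  have hl : 0 ≤ log (1 / ε) := Real.log_nonneg (by rw [le_div_iff₀ hε]; linarith)
  have key := bin ν p hm h0 h1 C hC g hg hg0 hg1 (log (1 / ε)) hl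
  rw [Real.exp_log (by positivity)] at key
  refine key.trans (add_le_add le_rfl ?_)
  have hq : 0 ≤ ∫ y, ∑ i, g y i * (∫ z, p z i ∂ν) ∂ν := integral_nonneg fun y =>
    Finset.sum_nonneg fun i _ => mul_nonneg (hg0 y i) (integral_nonneg fun z => h0 z i)
  have h2 : (1 / ε - 1) * ∫ y, ∑ i, g y i * (∫ z, p z i ∂ν) ∂ν ≤ 1 := by
    have h3 : 0 ≤ 1 / ε - 1 := by
      rw [sub_nonneg, le_div_iff₀ hε]
      linarith
    calc (1 / ε - 1) * ∫ y, ∑ i, g y i * (∫ z, p z i ∂ν) ∂ν ≤ (1 / ε - 1) * ε :=
          mul_le_mul_of_nonneg_left hQ h3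
      _ = 1 - ε := by field_simp
      _ ≤ 1 := by linarith
  have h4 : 0 ≤ (1 / ε - 1) * ∫ y, ∑ i, g y i * (∫ z, p z i ∂ν) ∂ν := by
    refine mul_nonneg ?_ hq
    rw [sub_nonneg, le_div_iff₀ hε]
    linarith
  exact Real.log_le_log (by linarith) (by linarith)

end Helper26.AG
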